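import Pool.Agent.H29.DW.Targets

/-!
# The bump functions `pp`
-/

set_option autoImplicit false

open Set Filter Complex Topology

namespace Pool.Agent.H42.DW

open Pool.Agent.H29.DW

private lemma bdd {E : Type} [NormedAddCommGroup E] [NormedSpace ℝ E] (F : ℂ → E)
    (hF : ContDiff ℝ (⊤ : ℕ∞) F) (hc : HasCompactSupport F) (A : ℕ) :
    ∃ M : ℝ, 1 ≤ M ∧ ∀ j ≤ A, ∀ x, ‖iteratedFDeriv ℝ j F x‖ ≤ M := by
  have h : ∀ j : ℕ, ∃ C : ℝ, ∀ x, ‖iteratedFDeriv ℝ j F x‖ ≤ C := fun j =>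
    (hc.iteratedFDeriv (𝕜 := ℝ) j).exists_bound_of_continuous
      (hF.continuous_iteratedFDeriv (by exact_mod_cast le_top))
  choose C hC using h
  have hC0 : ∀ j, 0 ≤ C j := fun j => (norm_nonneg _).trans (hC j 0)
  refine ⟨1 + ∑ j ∈ Finset.range (A + 1), C j, ?_, ?_⟩
  · have := Finset.sum_nonneg fun j (_ : j ∈ Finset.range (A + 1)) => hC0 j
    linarith
  · intro j hj x
    have h1 := Finset.single_le_sum (f := C) (fun i _ => hC0 i)
      (Finset.mem_range.2 (Nat.lt_succ_of_le hj))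
    have h2 := hC j x
    linarith

/-- a second bump function -/
private noncomputable def b1 : ContDiffBump (0 : ℂ) := ⟨1 / 8, 1 / 4, by norm_num, by norm_num⟩

private noncomputable def Gt (y : ℂ) : ℝ := b1 y * Real.log ‖1 + y‖

private lemma Gt_smooth : ContDiff ℝ (⊤ : ℕ∞) Gt := by
  rw [contDiff_iff_contDiffAt]
  intro y
  by_cases h : y ∈ tsupport b1
  · have h1 : ‖y‖ ≤ 1 / 4 := by
      rw [b1.tsupport_eq, Metric.mem_closedBall, dist_zero_right] at h
      exact h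
    have h2 : (1 : ℂ) + y ≠ 0 := by
      intro h0
      have h3 : y = -1 := by
        linear_combination h0
      rw [h3] at h1
      norm_num at h1
    refine b1.contDiff.contDiffAt.mul ?_
    have h3 : ContDiffAt ℝ (⊤ : ℕ∞) (fun y : ℂ => ‖1 + y‖) y :=
      (contDiffAt_norm ℝ h2).comp y (contDiff_const.add contDiff_id).contDiffAt
    exact h3.log (norm_ne_zero_iff.2 h2)
  · have h1 : Gt =ᶠ[𝓝 y] fun _ => 0 := by
      have h2 : b1 =ᶠ[𝓝 y] (0 : ℂ → ℝ) := notMem_tsupport_iff_eventuallyEq.1 h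
      filter_upwards [h2] with x hx
      unfold Gt
      rw [hx, Pi.zero_apply, zero_mul]
    exact contDiffAt_const.congr_of_eventuallyEq h1

private lemma Gt_supp : HasCompactSupport Gt :=
  (b1.hasCompactSupport).mul_right

private lemma Gt_eq {y : ℂ} (h : ‖y‖ ≤ 1 / 8) : Gt y = Real.log ‖1 + y‖ := by
  unfold Gt
  rw [b1.one_of_mem_closedBall, one_mul]
  rw [Metric.mem_closedBall, dist_zero_right]
  exact h

private lemma b0z {x : ℂ} (h : 1 / 16 ≤ ‖x‖) : b0 x = 0 := by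
  apply b0.zero_of_le_dist
  rw [dist_zero_right]
  exact h

private lemma itd (c : ℂ) (n : ℕ) :
    iteratedDeriv n (fun t : ℝ => cexp (c * t)) = fun t : ℝ => c ^ n * cexp (c * t) := by
  induction n with
  | zero =>
    rw [iteratedDeriv_zero]
    funext t
    rw [pow_zero, one_mul]
  | succ n ih =>
    rw [iteratedDeriv_succ, ih]
    funext t
    have h1 : HasDerivAt (fun t : ℝ => c * (t : ℂ)) (c * 1) t :=
      (Complex.ofRealCLM.hasDerivAt (x := t)).const_mul c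
    have h2 := (h1.cexp.const_mul (c ^ n)).deriv
    rw [h2]
    ring

private lemma scal {E : Type} [NormedAddCommGroup E] [NormedSpace ℝ E] (F : ℂ → E)
    (hF : ContDiff ℝ (⊤ : ℕ∞) F) (H : ℝ) (hH : 1 ≤ H) (j : ℕ) (x : ℂ) :
    ‖iteratedFDeriv ℝ j (fun x : ℂ => F (H⁻¹ • x)) x‖ ≤ ‖iteratedFDeriv ℝ j F (H⁻¹ • x)‖ := by
  have hH0 : 0 < H := lt_of_lt_of_le one_pos hH
  let g : ℂ →L[ℝ] ℂ := H⁻¹ • ContinuousLinearMap.id ℝ ℂ
  have hg : ∀ x, g x = H⁻¹ • x := fun x => rfl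
  have hgn : ‖g‖ ≤ 1 := by
    refine ContinuousLinearMap.opNorm_le_bound _ zero_le_one fun x => ?_
    rw [hg, norm_smul, Real.norm_of_nonneg (inv_nonneg.2 hH0.le)]
    exact mul_le_mul_of_nonneg_right (inv_le_one_of_one_le₀ hH) (norm_nonneg _)
  have h1 : (fun x : ℂ => F (H⁻¹ • x)) = F ∘ g := rfl
  rw [h1, g.iteratedFDeriv_comp_right (n := (⊤ : ℕ∞)) hF x (by exact_mod_cast le_top)]
  refine (ContinuousMultilinearMap.norm_compContinuousLinearMap_le _ _).trans ?_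
  rw [Finset.prod_const, hg]
  exact mul_le_of_le_one_right (norm_nonneg _) (pow_le_one₀ (norm_nonneg _) hgn)

/-- the bump functions `pp` -/
theorem pf_PB : V_PB := by
  intro A
  obtain ⟨M, hM1, hM⟩ := bdd Gt Gt_smooth Gt_supp A
  obtain ⟨M', hM'1, hM'⟩ := bdd (fun x : ℂ => (b0 x : ℂ))
    (Complex.ofRealCLM.contDiff.comp b0.contDiff)
    (b0.hasCompactSupport.comp_left (g := fun t : ℝ => (t : ℂ)) Complex.ofReal_zero) A
  set C : ℝ := 2 ^ A * M' * (A.factorial * Real.exp (4 * M) * M ^ A) with hC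
  have hfac : (1 : ℝ) ≤ A.factorial := by exact_mod_cast A.factorial_pos
  have hexp : (1 : ℝ) ≤ Real.exp (4 * M) := Real.one_le_exp (by linarith)
  have hMA : (1 : ℝ) ≤ M ^ A := one_le_pow₀ hM1
  have hC1 : 1 ≤ C := by
    have h1 : (1 : ℝ) ≤ 2 ^ A := one_le_pow₀ (by norm_num)
    have h2 : (1 : ℝ) ≤ 2 ^ A * M' := one_le_mul_of_one_le_of_one_le h1 hM'1
    have h3 : (1 : ℝ) ≤ A.factorial * Real.exp (4 * M) :=
      one_le_mul_of_one_le_of_one_le hfac hexp
    exact one_le_mul_of_one_le_of_one_le h2 (one_le_mul_of_one_le_of_one_le h3 hMA)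
  refine ⟨C, hC1, fun H l hH hl => ?_⟩
  have hH0 : 0 < H := lt_of_lt_of_le one_pos hH
  -- the function with the cut-off
  have hpp : pp H l = fun x : ℂ => (b0 x : ℂ) * cexp (-l * (Gt (H⁻¹ • x) : ℝ)) := by
    funext x
    unfold pp
    rcases le_or_gt (1 / 16) ‖x‖ with h | h
    · rw [b0z h, Complex.ofReal_zero, zero_mul, zero_mul]
    · have h1 : H⁻¹ • x = x / H := by
        rw [Complex.real_smul, Complex.ofReal_inv, div_eq_inv_mul]
      have h2 : ‖H⁻¹ • x‖ ≤ 1 / 8 := by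
        rw [norm_smul, Real.norm_of_nonneg (inv_nonneg.2 hH0.le)]
        have : H⁻¹ * ‖x‖ ≤ 1 * ‖x‖ :=
          mul_le_mul_of_nonneg_right (inv_le_one_of_one_le₀ hH) (norm_nonneg _)
        linarith
      rw [Gt_eq h2, h1]
  have hf : ContDiff ℝ (⊤ : ℕ∞) (fun x : ℂ => Gt (H⁻¹ • x)) :=
    Gt_smooth.comp (contDiff_id.const_smul H⁻¹)
  have hg : ContDiff ℝ (⊤ : ℕ∞) (fun t : ℝ => cexp (-l * t)) :=
    (contDiff_const.mul Complex.ofRealCLM.contDiff).cexp
  have hgf : ContDiff ℝ (⊤ : ℕ∞) (fun x : ℂ => cexp (-l * (Gt (H⁻¹ • x) : ℝ))) := hg.comp hf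
  have hb : ContDiff ℝ (⊤ : ℕ∞) (fun x : ℂ => (b0 x : ℂ)) :=
    Complex.ofRealCLM.contDiff.comp b0.contDiff
  have hl1 : 1 ≤ 1 + ‖l‖ := by linarith [norm_nonneg l]
  -- the derivatives of the exponential
  have hE : ∀ j ≤ A, ∀ x : ℂ, ‖iteratedFDeriv ℝ j
      (fun x : ℂ => cexp (-l * (Gt (H⁻¹ • x) : ℝ))) x‖ ≤
        A.factorial * ((1 + ‖l‖) ^ A * Real.exp (4 * M)) * M ^ A := by
    intro j hj x
    have h1 := norm_iteratedFDeriv_comp_le (𝕜 := ℝ) (n := j) (N := (⊤ : ℕ∞)) hg hf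
      (by exact_mod_cast le_top) x (C := (1 + ‖l‖) ^ A * Real.exp (4 * M)) (D := M) ?_ ?_
    · refine h1.trans ?_
      have h2 : (j.factorial : ℝ) ≤ A.factorial := by exact_mod_cast Nat.factorial_le hj
      have h3 : M ^ j ≤ M ^ A := pow_le_pow_right₀ hM1 hj
      have h4 : 0 ≤ (1 + ‖l‖) ^ A * Real.exp (4 * M) := by positivity
      exact mul_le_mul (mul_le_mul_of_nonneg_right h2 h4) h3 (by positivity) (by positivity)
    · intro i hi
      rw [norm_iteratedFDeriv_eq_norm_iteratedDeriv, itd, norm_mul, norm_pow, norm_neg,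
        Complex.norm_exp]
      have h2 : ‖l‖ ^ i ≤ (1 + ‖l‖) ^ A :=
        (pow_le_pow_left₀ (norm_nonneg _) (by linarith) i).trans
          (pow_le_pow_right₀ hl1 (hi.trans hj))
      have h3 : (-l * (Gt (H⁻¹ • x) : ℝ)).re ≤ 4 * M := by
        rw [neg_mul, Complex.neg_re, Complex.re_mul_ofReal]
        have h4 : |Gt (H⁻¹ • x)| ≤ M := by
          have := hM 0 (Nat.zero_le _) (H⁻¹ • x)
          rwa [norm_iteratedFDeriv_zero] at this
        have h5 : |l.re * Gt (H⁻¹ • x)| ≤ 4 * M := by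
          rw [abs_mul]
          exact mul_le_mul hl h4 (abs_nonneg _) (by norm_num)
        linarith [neg_le_abs (l.re * Gt (H⁻¹ • x))]
      exact mul_le_mul h2 (Real.exp_le_exp.2 h3) (Real.exp_pos _).le (by positivity)
    · intro i hi1 hi
      refine (scal Gt Gt_smooth H hH i x).trans ((hM i (hi.trans hj) _).trans ?_)
      calc M = M ^ 1 := (pow_one M).symm
        _ ≤ M ^ i := pow_le_pow_right₀ hM1 hi1
  refine ⟨fun n => ?_, fun x hx => ?_, fun j hj x => ?_⟩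
  · rw [hpp]
    exact (hb.mul hgf).of_le (by exact_mod_cast le_top)
  · unfold pp
    rw [b0z hx.le, Complex.ofReal_zero, zero_mul]
  · rw [hpp]
    refine (norm_iteratedFDeriv_mul_le hb hgf x (by exact_mod_cast le_top)).trans ?_
    have h1 : ∀ i ∈ Finset.range (j + 1), (j.choose i : ℝ) *
        ‖iteratedFDeriv ℝ i (fun x : ℂ => (b0 x : ℂ)) x‖ * ‖iteratedFDeriv ℝ (j - i)
          (fun x : ℂ => cexp (-l * (Gt (H⁻¹ • x) : ℝ))) x‖ ≤
        (j.choose i : ℝ) * (M' * (A.factorial * ((1 + ‖l‖) ^ A * Real.exp (4 * M)) * M ^ A)) := by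
      intro i hi
      have hi' : i ≤ j := Nat.lt_succ_iff.1 (Finset.mem_range.1 hi)
      rw [mul_assoc]
      refine mul_le_mul_of_nonneg_left ?_ (Nat.cast_nonneg _)
      exact mul_le_mul (hM' i (hi'.trans hj) x) (hE (j - i) ((Nat.sub_le _ _).trans hj) x)
        (norm_nonneg _) (by linarith)
    refine (Finset.sum_le_sum h1).trans ?_
    rw [← Finset.sum_mul]
    have h2 : ∑ i ∈ Finset.range (j + 1), (j.choose i : ℝ) = 2 ^ j := by
      exact_mod_cast Nat.sum_range_choose j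
    rw [h2]
    have h3 : (2 : ℝ) ^ j ≤ 2 ^ A := pow_le_pow_right₀ (by norm_num) hj
    have h4 : 0 ≤ M' * (A.factorial * ((1 + ‖l‖) ^ A * Real.exp (4 * M)) * M ^ A) := by positivity
    calc (2 : ℝ) ^ j * (M' * (A.factorial * ((1 + ‖l‖) ^ A * Real.exp (4 * M)) * M ^ A)) ≤
        2 ^ A * (M' * (A.factorial * ((1 + ‖l‖) ^ A * Real.exp (4 * M)) * M ^ A)) :=
          mul_le_mul_of_nonneg_right h3 h4
      _ = C * (1 + ‖l‖) ^ A := by
          rw [hC]
          ring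

end Pool.Agent.H42.DW
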